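import Pool.Agent.Lib.MP_2543de_nt.Full.Final

namespace Pool.Agent.Results.MP_2543de_nt.CousinEveryCube

open Pool.Agent.MP_2543de_nt

/-- Between the consecutive cubes `n^3` and `(n+1)^3` there is, for every `n ≥ 2`, a pair of
consecutive cyclic numbers which differ by exactly `4`. -/
theorem result : ∀ n : ℕ, 2 ≤ n → 1 ≤ cousinCount n :=
  fun n hn => Full.one_le_cousinCount n hn

end Pool.Agent.Results.MP_2543de_nt.CousinEveryCube
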