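import Pool.Agent.Lib.MP_2543de_nt.Asymp

namespace Pool.Agent.Results.MP_2543de_nt.CousinInfinity

open Filter Pool.Agent.MP_2543de_nt

/-- The number `C(n) = cousinCount n` of pairs of consecutive cyclic numbers with difference
exactly `4` strictly between `n^3` and `(n+1)^3` tends to infinity, and in fact exceeds
`n^(2-ε)` for every `ε > 0` and all large `n`. -/
theorem result :
    (∀ k : ℕ, ∃ N : ℕ, ∀ n : ℕ, N ≤ n → k ≤ cousinCount n) ∧
    ∀ ε : ℝ, 0 < ε → ∀ᶠ n : ℕ in atTop, (n : ℝ) ^ (2 - ε) ≤ (cousinCount n : ℝ) := by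
  refine ⟨fun k => ?_, fun ε hε => rpow_le_cousinCount hε⟩
  obtain ⟨N, hN⟩ := eventually_atTop.1 (tendsto_cousinCount.eventually_ge_atTop k)
  exact ⟨N, fun n hn => hN n hn⟩

end Pool.Agent.Results.MP_2543de_nt.CousinInfinity
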