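import Pool.Agent.Lib.MP_2543de_nt.Asymp
import Pool.Agent.Lib.MP_2543de_nt.Least.Final

namespace Pool.Agent.Results.MP_2543de_nt.CousinLeast

open Filter Pool.Agent.MP_2543de_nt

/-- Full answer to Q2: `C(n) = cousinCount n` tends to infinity, and the least `N(k)` such that
`C(n) ≥ k` for all `n ≥ N(k)` are `N(1) = 2`, `N(2) = N(3) = 3`, `N(4) = ... = N(8) = 4` and
`N(9) = ... = N(14) = 6`. -/
theorem result :
    (∀ k : ℕ, ∃ N : ℕ, ∀ n : ℕ, N ≤ n → k ≤ cousinCount n) ∧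
    IsLeast {N : ℕ | ∀ n, N ≤ n → 1 ≤ cousinCount n} 2 ∧
    (∀ k, 2 ≤ k → k ≤ 3 → IsLeast {N : ℕ | ∀ n, N ≤ n → k ≤ cousinCount n} 3) ∧
    (∀ k, 4 ≤ k → k ≤ 8 → IsLeast {N : ℕ | ∀ n, N ≤ n → k ≤ cousinCount n} 4) ∧
    (∀ k, 9 ≤ k → k ≤ 14 → IsLeast {N : ℕ | ∀ n, N ≤ n → k ≤ cousinCount n} 6) := by
  refine ⟨fun k => ?_, Least.least_values⟩
  obtain ⟨N, hN⟩ := eventually_atTop.1 (tendsto_cousinCount.eventually_ge_atTop k)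
  exact ⟨N, fun n hn => hN n hn⟩

end Pool.Agent.Results.MP_2543de_nt.CousinLeast
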